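import Pool.Agent.H381R4.CM.Stubs

/-! Task BDD (helper439): a convex set of positive finite volume is bounded. -/

set_option autoImplicit false
open MeasureTheory Matrix Filter Topology
open scoped ENNReal BigOperators Pointwise

namespace Pool.Agent.H381CM

namespace BDD

/-- the balls of half the radius on the way to `x` -/
theorem ball_sub {d : ℕ} {C : Set (V d)} (hC : Convex ℝ C) {a x : V d} {r s : ℝ}
    (hball : Metric.ball a r ⊆ C) (hx : x ∈ C) (hs0 : 0 ≤ s) (hs : s ≤ 1 / 2) :
    Metric.ball (a + s • (x - a)) (r / 2) ⊆ C := by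
  intro y hy
  rw [Metric.mem_ball, dist_eq_norm] at hy
  set v : V d := y - (a + s • (x - a)) with hv
  have h1s : 0 < 1 - s := by linarith
  have hp : a + (1 - s)⁻¹ • v ∈ C := by
    apply hball
    rw [Metric.mem_ball, dist_eq_norm, add_sub_cancel_left, norm_smul, Real.norm_eq_abs,
      abs_of_pos (inv_pos.2 h1s)]
    have h2 : (1 - s)⁻¹ ≤ 2 := by
      rw [inv_le_comm₀ h1s (by norm_num)]
      linarith
    calc (1 - s)⁻¹ * ‖v‖ ≤ 2 * ‖v‖ := mul_le_mul_of_nonneg_right h2 (norm_nonneg _)
      _ < r := by linarith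
  have h3 := hC hp hx h1s.le hs0 (by ring)
  have h4 : (1 - s) • (a + (1 - s)⁻¹ • v) + s • x = y := by
    rw [smul_add, smul_smul, mul_inv_cancel₀ h1s.ne', one_smul, hv]
    module
  rwa [h4] at h3

end BDD

open BDD in
theorem T_BDD : S_BDD := by
  intro d C hC h0 hfin
  have hint : (interior C).Nonempty := by
    by_contra hne
    rw [Set.not_nonempty_iff_eq_empty] at hne
    have h1 : C ⊆ frontier C := by
      intro x hx
      refine ⟨subset_closure hx, ?_⟩
      rw [hne]
      exact Set.notMem_empty x
    have h2 := measure_mono (μ := (volume : Measure (V d))) h1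
    rw [hC.addHaar_frontier (volume : Measure (V d))] at h2
    exact absurd h0 (not_lt.2 h2)
  refine ⟨?_, hint⟩
  obtain ⟨a, ha⟩ := hint
  obtain ⟨r, hr, hball⟩ := Metric.isOpen_iff.1 isOpen_interior a ha
  have hball' : Metric.ball a r ⊆ C := hball.trans interior_subset
  have hv : volume (Metric.ball (0 : V d) (r / 2)) ≠ 0 :=
    (Metric.measure_ball_pos _ _ (by positivity)).ne'
  obtain ⟨m, hm⟩ := ENNReal.exists_nat_mul_gt hv hfin.ne
  have hkey : ∀ x ∈ C, ‖x - a‖ ≤ 2 * r * m := by
    intro x hx
    by_contra hcon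
    push Not at hcon
    obtain ⟨D, hD⟩ : ∃ D : ℝ, D = ‖x - a‖ := ⟨_, rfl⟩
    rw [← hD] at hcon
    have hm0 : (0 : ℝ) ≤ 2 * r * m := by positivity
    have hD0 : 0 < D := lt_of_le_of_lt hm0 hcon
    have hsub : ∀ i ∈ Finset.range m,
        Metric.ball (a + ((i : ℝ) * (r / D)) • (x - a)) (r / 2) ⊆ C := by
      intro i hi
      refine ball_sub hC hball' hx (by positivity) ?_
      have hi' : (i : ℝ) ≤ m := by exact_mod_cast (Finset.mem_range.1 hi).le
      rw [← mul_div_assoc, div_le_iff₀ hD0]
      have : (i : ℝ) * r ≤ m * r := mul_le_mul_of_nonneg_right hi' hr.le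
      linarith
    have hdisj : Set.PairwiseDisjoint (Finset.range m : Set ℕ)
        (fun i : ℕ => Metric.ball (a + ((i : ℝ) * (r / D)) • (x - a)) (r / 2)) := by
      intro i _ j _ hij
      apply Metric.ball_disjoint_ball
      rw [dist_add_left, dist_eq_norm, ← sub_smul, norm_smul, ← hD, ← sub_mul, norm_mul,
        Real.norm_eq_abs, Real.norm_eq_abs, abs_of_pos (div_pos hr hD0)]
      have h1 : (1 : ℝ) ≤ |(i : ℝ) - j| := by
        have h2 : (1 : ℤ) ≤ |(i : ℤ) - j| := by
          apply Int.one_le_abs
          intro h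
          apply hij
          omega
        exact_mod_cast h2
      calc r / 2 + r / 2 = 1 * r := by ring
        _ ≤ |(i : ℝ) - j| * r := mul_le_mul_of_nonneg_right h1 hr.le
        _ = |(i : ℝ) - j| * (r / D) * D := by field_simp
    have hsum : (m : ℝ≥0∞) * volume (Metric.ball (0 : V d) (r / 2)) ≤ volume C := by
      calc (m : ℝ≥0∞) * volume (Metric.ball (0 : V d) (r / 2))
          = ∑ i ∈ Finset.range m,
            volume (Metric.ball (a + ((i : ℝ) * (r / D)) • (x - a)) (r / 2)) := by
            simp only [Measure.addHaar_ball_center, Finset.sum_const, Finset.card_range,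
              nsmul_eq_mul]
        _ = volume (⋃ i ∈ Finset.range m,
            Metric.ball (a + ((i : ℝ) * (r / D)) • (x - a)) (r / 2)) :=
            (measure_biUnion_finset hdisj fun i _ => measurableSet_ball).symm
        _ ≤ volume C := measure_mono (Set.iUnion₂_subset hsub)
    exact absurd hm (not_lt.2 hsum)
  refine (Metric.isBounded_closedBall (x := a) (r := 2 * r * m)).subset fun x hx => ?_
  rw [Metric.mem_closedBall, dist_eq_norm]
  exact hkey x hx

end Pool.Agent.H381CM
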